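import Pool.Agent.W106.CW.Stm

/-! Project CW: the covariance inequality. -/

set_option autoImplicit false
open Classical

namespace Pool.Agent.W143.CW

open Pool.Agent.W106.CW

variable {V : Type} [Fintype V] {G : SimpleGraph V} {x : V → ℝ}

theorem mem_cn {v w : V} : w ∈ cn G v ↔ w = v ∨ G.Adj v w := by simp [cn]

theorem cn_symm {v w : V} : w ∈ cn G v ↔ v ∈ cn G w := by
  rw [mem_cn, mem_cn, G.adj_comm, eq_comm]

theorem mem_free {I : Finset V} {v : V} : v ∈ free G I ↔ ∀ w ∈ I, w ∉ cn G v := by simp [free]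

theorem not_mem_of_free {I : Finset V} {v : V} (h : v ∈ free G I) : v ∉ I := fun hv =>
  (mem_free.1 h) v hv (mem_cn.2 (Or.inl rfl))

theorem free_insert {I : Finset V} {v : V} :
    free G (insert v I) = (free G I).filter (fun w => ¬ w ∈ cn G v) := by
  ext w
  rw [Finset.mem_filter, mem_free, mem_free]
  constructor
  · intro h
    exact ⟨fun z hz => h z (Finset.mem_insert_of_mem hz), fun h1 =>
      h v (Finset.mem_insert_self _ _) (cn_symm.1 h1)⟩
  · rintro ⟨h1, h2⟩ z hz
    rcases Finset.mem_insert.1 hz with rfl | hz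
    · exact fun h3 => h2 (cn_symm.1 h3)
    · exact h1 z hz

theorem wt_pos (hx : ∀ v, 0 < x v) (I : Finset V) : 0 < wt x I := Finset.prod_pos fun v _ => hx v

theorem Z_pos (hx : ∀ v, 0 < x v) : 0 < Z G x := by
  unfold Z
  refine Finset.sum_pos (fun I _ => wt_pos hx I) ⟨∅, ?_⟩
  simp [ind]

theorem av_add (f g : Finset V → ℝ) : av G x (fun I => f I + g I) = av G x f + av G x g := by
  unfold av ex
  rw [← add_div, ← Finset.sum_add_distrib]
  congr 1
  exact Finset.sum_congr rfl fun I _ => by ring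

theorem av_sub (f g : Finset V → ℝ) : av G x (fun I => f I - g I) = av G x f - av G x g := by
  unfold av ex
  rw [← sub_div, ← Finset.sum_sub_distrib]
  congr 1
  exact Finset.sum_congr rfl fun I _ => by ring

theorem av_mul (c : ℝ) (f : Finset V → ℝ) : av G x (fun I => c * f I) = c * av G x f := by
  unfold av ex
  rw [← mul_div_assoc, Finset.mul_sum]
  congr 1
  exact Finset.sum_congr rfl fun I _ => by ring

theorem av_sum {β : Type} (s : Finset β) (f : β → Finset V → ℝ) :
    av G x (fun I => ∑ v ∈ s, f v I) = ∑ v ∈ s, av G x (f v) := by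
  unfold av ex
  rw [← Finset.sum_div, Finset.sum_comm]
  congr 1
  exact Finset.sum_congr rfl fun I _ => by rw [Finset.mul_sum]

theorem av_mono (hx : ∀ v, 0 < x v) {f g : Finset V → ℝ} (h : ∀ I ∈ ind G, f I ≤ g I) :
    av G x f ≤ av G x g := by
  unfold av ex
  refine div_le_div_of_nonneg_right ?_ (Z_pos hx).le
  exact Finset.sum_le_sum fun I hI => mul_le_mul_of_nonneg_left (h I hI) (wt_pos hx I).le

theorem av_congr {f g : Finset V → ℝ} (h : ∀ I ∈ ind G, f I = g I) :
    av G x f = av G x g := by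
  unfold av ex
  congr 1
  exact Finset.sum_congr rfl fun I hI => by rw [h I hI]

theorem av_one (hx : ∀ v, 0 < x v) : av G x (fun _ => 1) = 1 := by
  unfold av ex
  rw [div_eq_one_iff_eq (Z_pos hx).ne']
  unfold Z
  exact Finset.sum_congr rfl fun I _ => by ring

theorem av_const (hx : ∀ v, 0 < x v) (c : ℝ) : av G x (fun _ => c) = c := by
  have := av_mul (G := G) (x := x) c (fun _ => 1)
  rw [av_one hx] at this
  simp only [mul_one] at this
  exact this

theorem sum_free (I : Finset V) (f : V → ℝ) :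
    ∑ v ∈ free G I, f v = ∑ v, (if v ∈ free G I then 1 else 0) * f v := by
  simp only [ite_mul, one_mul, zero_mul, Finset.sum_ite_mem, Finset.univ_inter]

theorem av_free (f : V → ℝ) : av G x (fun I => ∑ v ∈ free G I, f v) = ∑ v, f v * uu G x v := by
  have h1 : av G x (fun I => ∑ v ∈ free G I, f v) =
      av G x (fun I => ∑ v, f v * (if v ∈ free G I then 1 else 0)) :=
    av_congr fun I _ => by
      rw [sum_free]
      exact Finset.sum_congr rfl fun v _ => mul_comm _ _
  rw [h1, av_sum]
  refine Finset.sum_congr rfl fun v _ => ?_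
  rw [av_mul]
  rfl

theorem av_swap (hs : Swap) (g : V → ℝ) (H : Finset V → ℝ) :
    av G x (fun I => (∑ v ∈ I, g v) * H I) =
      av G x (fun I => ∑ v ∈ free G I, x v * g v * H (insert v I)) := by
  have h1 := hs V G x (fun v I => g v * H I)
  unfold av ex
  congr 1
  calc ∑ I ∈ ind G, wt x I * ((∑ v ∈ I, g v) * H I)
      = ∑ I ∈ ind G, ∑ v ∈ I, wt x I * (g v * H I) :=
        Finset.sum_congr rfl fun I _ => by rw [Finset.sum_mul, Finset.mul_sum]
    _ = _ := h1
    _ = _ := Finset.sum_congr rfl fun I _ => by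
        rw [Finset.mul_sum]
        exact Finset.sum_congr rfl fun v _ => by ring

/-- the linear statistic -/
noncomputable def LL (G : SimpleGraph V) (x g : V → ℝ) (I : Finset V) : ℝ :=
  ∑ v ∈ I, g v - ∑ v ∈ free G I, x v * g v

theorem av_LL (hs : Swap) (g : V → ℝ) (H : Finset V → ℝ) :
    av G x (fun I => LL G x g I * H I) =
      av G x (fun I => ∑ v ∈ free G I, x v * g v * (H (insert v I) - H I)) := by
  have h1 : av G x (fun I => LL G x g I * H I) =
      av G x (fun I => (∑ v ∈ I, g v) * H I) -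
        av G x (fun I => (∑ v ∈ free G I, x v * g v) * H I) := by
    rw [← av_sub]
    exact av_congr fun I _ => by unfold LL; ring
  rw [h1, av_swap hs, ← av_sub]
  refine av_congr fun I _ => ?_
  rw [Finset.sum_mul, ← Finset.sum_sub_distrib]
  exact Finset.sum_congr rfl fun v _ => by ring

theorem LL_insert (g : V → ℝ) {I : Finset V} {v : V} (hv : v ∈ free G I) :
    LL G x g (insert v I) - LL G x g I =
      g v + ∑ w ∈ (free G I).filter (fun w => w ∈ cn G v), x w * g w := by
  unfold LL
  rw [Finset.sum_insert (not_mem_of_free hv), free_insert]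
  have := Finset.sum_filter_add_sum_filter_not (free G I) (fun w => w ∈ cn G v)
    (fun w => x w * g w)
  linarith

theorem pointwise (hx : ∀ v, 0 < x v) (g : V → ℝ) (U : Finset V) :
    ∑ v ∈ U, x v * g v * (g v + ∑ w ∈ U.filter (fun w => w ∈ cn G v), x w * g w) ≤
      ∑ v ∈ U, x v * g v ^ 2 * (1 + ∑ w ∈ U.filter (fun w => w ∈ cn G v), x w) := by
  have e1 : ∑ v ∈ U, x v * g v * (g v + ∑ w ∈ U.filter (fun w => w ∈ cn G v), x w * g w) =
      ∑ v ∈ U, x v * g v ^ 2 + ∑ v ∈ U, ∑ w ∈ U, (if w ∈ cn G v then x v * x w else 0) *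
        (g v * g w) := by
    rw [← Finset.sum_add_distrib]
    refine Finset.sum_congr rfl fun v _ => ?_
    rw [mul_add, Finset.sum_filter, Finset.mul_sum]
    congr 1
    · ring
    · refine Finset.sum_congr rfl fun w _ => ?_
      split_ifs <;> ring
  have e2 : ∑ v ∈ U, x v * g v ^ 2 * (1 + ∑ w ∈ U.filter (fun w => w ∈ cn G v), x w) =
      ∑ v ∈ U, x v * g v ^ 2 + ∑ v ∈ U, ∑ w ∈ U, (if w ∈ cn G v then x v * x w else 0) *
        g v ^ 2 := by
    rw [← Finset.sum_add_distrib]
    refine Finset.sum_congr rfl fun v _ => ?_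
    rw [mul_add, Finset.sum_filter, Finset.mul_sum, mul_one]
    congr 1
    refine Finset.sum_congr rfl fun w _ => ?_
    split_ifs <;> ring
  have e3 : ∑ v ∈ U, ∑ w ∈ U, (if w ∈ cn G v then x v * x w else 0) * g v ^ 2 =
      ∑ v ∈ U, ∑ w ∈ U, (if w ∈ cn G v then x v * x w else 0) * g w ^ 2 := by
    rw [Finset.sum_comm]
    refine Finset.sum_congr rfl fun v _ => Finset.sum_congr rfl fun w _ => ?_
    by_cases h : w ∈ cn G v
    · rw [if_pos h, if_pos (cn_symm.1 h)]; ring
    · rw [if_neg h, if_neg (fun h' => h (cn_symm.1 h'))]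
  have e4 : 0 ≤ ∑ v ∈ U, ∑ w ∈ U, (if w ∈ cn G v then x v * x w else 0) * (g v - g w) ^ 2 :=
    Finset.sum_nonneg fun v _ => Finset.sum_nonneg fun w _ => by
      have h1 := hx v
      have h2 := hx w
      split_ifs <;> positivity
  have e5 : ∑ v ∈ U, ∑ w ∈ U, (if w ∈ cn G v then x v * x w else 0) * (g v - g w) ^ 2 =
      ∑ v ∈ U, ∑ w ∈ U, (if w ∈ cn G v then x v * x w else 0) * g v ^ 2 +
      ∑ v ∈ U, ∑ w ∈ U, (if w ∈ cn G v then x v * x w else 0) * g w ^ 2 -
      2 * ∑ v ∈ U, ∑ w ∈ U, (if w ∈ cn G v then x v * x w else 0) * (g v * g w) := by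
    rw [Finset.mul_sum, ← Finset.sum_add_distrib, ← Finset.sum_sub_distrib]
    refine Finset.sum_congr rfl fun v _ => ?_
    rw [Finset.mul_sum, ← Finset.sum_add_distrib, ← Finset.sum_sub_distrib]
    refine Finset.sum_congr rfl fun w _ => ?_
    ring
  rw [e1, e2]
  rw [e5, ← e3] at e4
  linarith

/-- the bound for the degree of the free neighbourhood -/
theorem bound (hs : Swap) (hx : ∀ v, 0 < x v) (v : V) :
    av G x (fun I => (if v ∈ free G I then 1 else 0) *
      (1 + ∑ w ∈ (free G I).filter (fun w => w ∈ cn G v), x w)) ≤ 1 := by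
  have h0 := hs V G x (fun w J => if (w ∈ cn G v ∧ ∀ z ∈ J, z ∈ cn G v → z = w) then (1 : ℝ) else 0)
  have hL : ∑ I ∈ ind G, ∑ w ∈ I, wt x I *
      (if (w ∈ cn G v ∧ ∀ z ∈ I, z ∈ cn G v → z = w) then (1 : ℝ) else 0) ≤
      ∑ I ∈ ind G, wt x I * (1 - (if v ∈ free G I then 1 else 0)) := by
    refine Finset.sum_le_sum fun I _ => ?_
    rw [← Finset.mul_sum]
    refine mul_le_mul_of_nonneg_left ?_ (wt_pos hx I).le
    by_cases hv : v ∈ free G I
    · rw [if_pos hv, sub_self]
      refine le_of_eq (Finset.sum_eq_zero fun w hw => ?_)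
      rw [if_neg]
      rintro ⟨h1, _⟩
      exact mem_free.1 hv w hw h1
    · rw [if_neg hv, sub_zero]
      have h1 : ∃ w0 ∈ I, w0 ∈ cn G v := by
        by_contra h2
        push Not at h2
        exact hv (mem_free.2 h2)
      obtain ⟨w0, hw0, hw0v⟩ := h1
      calc ∑ w ∈ I, (if (w ∈ cn G v ∧ ∀ z ∈ I, z ∈ cn G v → z = w) then (1 : ℝ) else 0)
          ≤ ∑ w ∈ I, (if w = w0 then (1 : ℝ) else 0) := by
            refine Finset.sum_le_sum fun w _ => ?_
            by_cases h3 : w ∈ cn G v ∧ ∀ z ∈ I, z ∈ cn G v → z = w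
            · rw [if_pos h3, if_pos (h3.2 w0 hw0 hw0v).symm]
            · rw [if_neg h3]; split_ifs <;> norm_num
        _ ≤ 1 := by
            rw [Finset.sum_ite_eq' I w0]
            split_ifs <;> norm_num
  have hR : ∑ I ∈ ind G, wt x I * ((if v ∈ free G I then 1 else 0) *
      ∑ w ∈ (free G I).filter (fun w => w ∈ cn G v), x w) ≤
      ∑ I ∈ ind G, ∑ w ∈ free G I, wt x I * (x w *
      (if (w ∈ cn G v ∧ ∀ z ∈ insert w I, z ∈ cn G v → z = w) then (1 : ℝ) else 0)) := by
    refine Finset.sum_le_sum fun I _ => ?_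
    rw [← Finset.mul_sum]
    refine mul_le_mul_of_nonneg_left ?_ (wt_pos hx I).le
    by_cases hv : v ∈ free G I
    · rw [if_pos hv, one_mul, Finset.sum_filter]
      refine Finset.sum_le_sum fun w _ => ?_
      by_cases hw : w ∈ cn G v
      · rw [if_pos hw, if_pos, mul_one]
        refine ⟨hw, fun z hz hzv => ?_⟩
        rcases Finset.mem_insert.1 hz with h | h
        · exact h
        · exact absurd hzv (mem_free.1 hv z h)
      · rw [if_neg hw]
        have := hx w
        split_ifs <;> positivity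
    · rw [if_neg hv, zero_mul]
      refine Finset.sum_nonneg fun w _ => ?_
      have := hx w
      split_ifs <;> positivity
  have hZ : 0 < Z G x := Z_pos hx
  unfold av ex
  rw [div_le_one hZ]
  have e1 : ∑ I ∈ ind G, wt x I * ((if v ∈ free G I then 1 else 0) *
      (1 + ∑ w ∈ (free G I).filter (fun w => w ∈ cn G v), x w)) =
      ∑ I ∈ ind G, wt x I * (if v ∈ free G I then 1 else 0) +
      ∑ I ∈ ind G, wt x I * ((if v ∈ free G I then 1 else 0) *
      ∑ w ∈ (free G I).filter (fun w => w ∈ cn G v), x w) := by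
    rw [← Finset.sum_add_distrib]
    exact Finset.sum_congr rfl fun I _ => by ring
  have e2 : Z G x = ∑ I ∈ ind G, wt x I * (if v ∈ free G I then 1 else 0) +
      ∑ I ∈ ind G, wt x I * (1 - (if v ∈ free G I then 1 else 0)) := by
    unfold Z
    rw [← Finset.sum_add_distrib]
    exact Finset.sum_congr rfl fun I _ => by ring
  rw [e1, e2]
  linarith

theorem av_LL_sq (hs : Swap) (hx : ∀ v, 0 < x v) (g : V → ℝ) :
    av G x (fun I => LL G x g I * LL G x g I) ≤ ∑ v, x v * g v ^ 2 := by
  rw [av_LL hs]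
  have h1 : av G x (fun I => ∑ v ∈ free G I, x v * g v * (LL G x g (insert v I) - LL G x g I)) ≤
      av G x (fun I => ∑ v ∈ free G I, x v * g v ^ 2 *
        (1 + ∑ w ∈ (free G I).filter (fun w => w ∈ cn G v), x w)) := by
    refine av_mono hx fun I _ => ?_
    refine le_trans (le_of_eq ?_) (pointwise hx g (free G I))
    exact Finset.sum_congr rfl fun v hv => by rw [LL_insert g hv]
  refine h1.trans ?_
  have h2 : av G x (fun I => ∑ v ∈ free G I, x v * g v ^ 2 *
        (1 + ∑ w ∈ (free G I).filter (fun w => w ∈ cn G v), x w)) =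
      ∑ v, x v * g v ^ 2 * av G x (fun I => (if v ∈ free G I then 1 else 0) *
      (1 + ∑ w ∈ (free G I).filter (fun w => w ∈ cn G v), x w)) := by
    have h3 : av G x (fun I => ∑ v ∈ free G I, x v * g v ^ 2 *
        (1 + ∑ w ∈ (free G I).filter (fun w => w ∈ cn G v), x w)) =
        av G x (fun I => ∑ v, x v * g v ^ 2 * ((if v ∈ free G I then 1 else 0) *
      (1 + ∑ w ∈ (free G I).filter (fun w => w ∈ cn G v), x w))) := by
      refine av_congr fun I _ => ?_
      rw [sum_free]
      exact Finset.sum_congr rfl fun v _ => by ring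
    rw [h3, av_sum]
    exact Finset.sum_congr rfl fun v _ => av_mul _ _
  rw [h2]
  refine Finset.sum_le_sum fun v _ => ?_
  have h4 : 0 ≤ x v * g v ^ 2 := mul_nonneg (hx v).le (sq_nonneg _)
  have h5 := mul_le_mul_of_nonneg_left (bound hs hx (G := G) v) h4
  rwa [mul_one] at h5

theorem sumI_insert (ω : V → ℝ) {I : Finset V} {v : V} (hv : v ∈ free G I) :
    sumI ω (insert v I) = sumI ω I + ω v := by
  unfold sumI
  rw [Finset.sum_insert (not_mem_of_free hv)]; ring

theorem varIneq (hs : Swap) : VarIneq := by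
  intro V _ G x hx ω
  obtain ⟨g, hg⟩ : ∃ g : V → ℝ, g = fun v => uu G x v * ω v := ⟨_, rfl⟩
  obtain ⟨m, hm⟩ : ∃ m, m = av G x (sumI ω) := ⟨_, rfl⟩
  -- E L = 0
  have hL0 : av G x (fun I => LL G x g I) = 0 := by
    have h1 := av_LL hs (G := G) (x := x) g (fun _ => 1)
    simp only [mul_one, sub_self, mul_zero, Finset.sum_const_zero] at h1
    rw [h1, av_const hx]
  -- E[L X]
  have hLX : av G x (fun I => LL G x g I * sumI ω I) = ∑ v, x v * uu G x v ^ 2 * ω v ^ 2 := by
    rw [av_LL hs]
    have h1 : av G x (fun I => ∑ v ∈ free G I, x v * g v * (sumI ω (insert v I) - sumI ω I)) =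
        av G x (fun I => ∑ v ∈ free G I, x v * g v * ω v) := by
      refine av_congr fun I _ => Finset.sum_congr rfl fun v hv => ?_
      rw [sumI_insert ω hv]; ring
    rw [h1, av_free]
    refine Finset.sum_congr rfl fun v _ => ?_
    rw [hg]; ring
  have hLL := av_LL_sq hs hx (G := G) g
  have hM : ∑ v, x v * g v ^ 2 = ∑ v, x v * uu G x v ^ 2 * ω v ^ 2 := by
    refine Finset.sum_congr rfl fun v _ => ?_
    rw [hg]; ring
  rw [hM] at hLL
  -- the variance bound
  have hvar : ∑ v, x v * uu G x v ^ 2 * ω v ^ 2 ≤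
      av G x (fun I => sumI ω I * sumI ω I) - m ^ 2 := by
    have h0 : 0 ≤ av G x (fun I => (sumI ω I - m - LL G x g I) ^ 2) := by
      have := av_mono (G := G) hx (f := fun _ => 0) (g := fun I => (sumI ω I - m - LL G x g I) ^ 2)
        (fun I _ => sq_nonneg _)
      rwa [av_const hx] at this
    have h1 : av G x (fun I => (sumI ω I - m - LL G x g I) ^ 2) =
        av G x (fun I => sumI ω I * sumI ω I) + av G x (fun I => LL G x g I * LL G x g I) -
        2 * av G x (fun I => LL G x g I * sumI ω I) - 2 * m * av G x (sumI ω) +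
        2 * m * av G x (fun I => LL G x g I) + m ^ 2 := by
      rw [← av_mul, ← av_mul, ← av_mul, ← av_add, ← av_sub, ← av_sub, ← av_add]
      have h2 : (m ^ 2 : ℝ) = av G x (fun _ => m ^ 2) := (av_const hx _).symm
      conv_rhs => rw [h2]
      rw [← av_add]
      exact av_congr fun I _ => by ring
    rw [h1, hL0, hLX, ← hm] at h0
    nlinarith
  -- the first moment
  have hEY : ∑ v, x v * ω v * uu G x v = m := by
    have h1 := av_swap hs (G := G) (x := x) ω (fun _ => 1)
    simp only [mul_one] at h1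
    have h2 : av G x (fun I => ∑ v ∈ I, ω v) = m := by rw [hm]; rfl
    rw [h2, av_free] at h1
    exact h1.symm
  -- the second moment
  have hXX : av G x (fun I => sumI ω I * sumI ω I) =
      ∑ v, ω v * x v * av G x (fun I => (if v ∈ free G I then 1 else 0) * sumI ω I) +
      ∑ v, x v * ω v ^ 2 * uu G x v := by
    have h1 := av_swap hs (G := G) (x := x) ω (sumI ω)
    have h2 : av G x (fun I => ∑ v ∈ free G I, x v * ω v * sumI ω (insert v I)) =
        av G x (fun I => ∑ v, ω v * x v * ((if v ∈ free G I then 1 else 0) * sumI ω I)) +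
        av G x (fun I => ∑ v ∈ free G I, x v * ω v ^ 2) := by
      rw [← av_add]
      refine av_congr fun I _ => ?_
      have h3 : ∑ v, ω v * x v * ((if v ∈ free G I then 1 else 0) * sumI ω I) =
          ∑ v ∈ free G I, ω v * x v * sumI ω I := by
        rw [sum_free]
        exact Finset.sum_congr rfl fun v _ => by ring
      rw [h3, ← Finset.sum_add_distrib]
      refine Finset.sum_congr rfl fun v hv => ?_
      rw [sumI_insert ω hv]; ring
    have h4 : av G x (fun I => sumI ω I * sumI ω I) = av G x (fun I => (∑ v ∈ I, ω v) * sumI ω I) :=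
      rfl
    rw [h4, h1, h2, av_free, av_sum]
    congr 1
    exact Finset.sum_congr rfl fun v _ => av_mul _ _
  have e1 : ∑ v, ω v * x v * (uu G x v * av G x (sumI ω)
      - av G x (fun I => (if v ∈ free G I then 1 else 0) * sumI ω I)) =
      m * ∑ v, x v * ω v * uu G x v -
      ∑ v, ω v * x v * av G x (fun I => (if v ∈ free G I then 1 else 0) * sumI ω I) := by
    rw [Finset.mul_sum, ← Finset.sum_sub_distrib, ← hm]
    exact Finset.sum_congr rfl fun v _ => by ring
  have e2 : ∑ v, x v * uu G x v * (1 - uu G x v) * ω v ^ 2 =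
      ∑ v, x v * ω v ^ 2 * uu G x v - ∑ v, x v * uu G x v ^ 2 * ω v ^ 2 := by
    rw [← Finset.sum_sub_distrib]
    exact Finset.sum_congr rfl fun v _ => by ring
  rw [e1, e2, hEY]
  have e3 : m * m = m ^ 2 := by ring
  rw [e3]
  linarith

end Pool.Agent.W143.CW
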